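import Pool.Agent.Work.MP_d1e9a6_pr_final.Prob
import Pool.Agent.Work.MP_d1e9a6_pr_h36.TopTarget

/-!
Final assembly: the frozen statement from Theorem A.
-/

set_option autoImplicit false
open Classical

namespace Pool.Agent.Work.MP_d1e9a6_pr

theorem assemble (hA : Stmt_A) :
    ∀ k : ℕ, 3 ≤ k → ∀ ε : ℝ, 0 < ε → ∀ p : ℕ → ℝ,
      (∀ᶠ n : ℕ in Filter.atTop,
        (n : ℝ) ^ ε / (n : ℝ) ^ (1 / (k : ℝ)) ≤ p n ∧
        p n ≤ (n : ℝ) ^ (-ε) / (n : ℝ) ^ (1 / ((k : ℝ) + 1))) →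
      Filter.Tendsto
        (fun n : ℕ =>
          ∑ G ∈ (Finset.univ : Finset (SimpleGraph (Fin n))).filter
              (fun G => ∃ m : ℕ, Nonempty (ContinuousMap.HomotopyEquiv
                {x : Fin n → ℝ // ∃ s : Finset (Fin n), G.IsClique (s : Set (Fin n)) ∧
                    x ∈ convexHull ℝ ((fun i : Fin n => (Pi.single i (1 : ℝ) : Fin n → ℝ)) '' (s : Set (Fin n)))}
                {y : Fin m × Fin (k + 1) → ℝ // y = 0 ∨ ∃ i : Fin m,
                    (∀ j : Fin m, ∀ t : Fin (k + 1), j ≠ i → y (j, t) = 0) ∧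
                    ∑ t : Fin (k + 1), (y (i, t)) ^ 2 = 2 * y (i, 0)})),
            p n ^ G.edgeFinset.card * (1 - p n) ^ (n.choose 2 - G.edgeFinset.card))
        Filter.atTop (nhds 1) := by
  intro k hk ε hε p hp
  have h := assemble_PrG hA Top.topTarget hk hε hp
  unfold PrG at h
  exact h

end Pool.Agent.Work.MP_d1e9a6_pr
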