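import Pool.Agent.Work.MP_d1e9a6_pr.Statements
import Pool.Agent.Work.MP_d1e9a6_pr_h26.Conv
import Pool.Agent.Work.MP_d1e9a6_pr_h45.Step
import Pool.Agent.Work.MP_d1e9a6_pr_helper20.Reduce
import Pool.Agent.Work.MP_d1e9a6_pr_helper73.Sorted

/-!
Deterministic part of the final assembly: a sparse graph whose relevant common neighbourhoods are
acyclic has a clique complex which is homotopy equivalent to a wedge of spheres.
-/

set_option autoImplicit false

namespace Pool.Agent.Work.MP_d1e9a6_pr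

open Finset

theorem nonempty_of_acyc {V : Type} (G : SimpleGraph V) (S : Set V) (h : Acyc (cl G S) 0) :
    S.Nonempty := by
  have hz : Finsupp.single ([] : List V) (1 : ℤ) ∈ Zc (cl G S) 0 := by
    rw [mem_Zc]
    refine ⟨single_mem_CF 1 ⟨by simp, by simp⟩ rfl, ?_⟩
    rw [D_single_one, bd_nil]
  obtain ⟨y, hy, hDy⟩ := mem_Bd.1 (h 0 le_rfl hz)
  have hy0 : y ≠ 0 := by
    rintro rfl
    rw [map_zero] at hDy
    have := congrArg (fun f => f []) hDy
    simp at this
  obtain ⟨l, hl⟩ := Finsupp.support_nonempty_iff.2 hy0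
  obtain ⟨⟨h1, _⟩, h2⟩ := mem_CF.1 hy l hl
  match l, h2, h1 with
  | [v], _, h1 => exact ⟨v, h1 v (by simp)⟩

theorem bd_pair {V : Type} (x y : V) :
    bd [x, y] = Finsupp.single [y] 1 - Finsupp.single [x] 1 := by
  rw [bd_cons, bd_cons, bd_nil, map_zero, sub_zero, cone_single]

theorem connected_of_acyc {V : Type} (G : SimpleGraph V) (S : Set V) (h : Acyc (cl G S) 1)
    {a b : V} (ha : a ∈ S) (hb : b ∈ S) :
    Relation.ReflTransGen (fun x y => G.Adj x y ∧ y ∈ S) a b := by
  classical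
  set R : V → Prop := fun v => Relation.ReflTransGen (fun x y => G.Adj x y ∧ y ∈ S) a v with hR
  have hz : Finsupp.single [a] (1 : ℤ) - Finsupp.single [b] 1 ∈ Zc (cl G S) 1 := by
    rw [mem_Zc]
    refine ⟨Submodule.sub_mem _ (single_mem_CF 1 ⟨?_, ?_⟩ rfl) (single_mem_CF 1 ⟨?_, ?_⟩ rfl), ?_⟩
    · intro x hx
      rw [List.mem_singleton] at hx
      rw [hx]; exact ha
    · intro x hx y hy hxy
      rw [List.mem_singleton] at hx hy
      exact absurd (hx.trans hy.symm) hxy
    · intro x hx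
      rw [List.mem_singleton] at hx
      rw [hx]; exact hb
    · intro x hx y hy hxy
      rw [List.mem_singleton] at hx hy
      exact absurd (hx.trans hy.symm) hxy
    · rw [map_sub, D_single_one, D_single_one, bd_cons, bd_cons, bd_nil, map_zero, map_zero,
        sub_self]
  obtain ⟨y, hy, hDy⟩ := mem_Bd.1 (h 1 le_rfl hz)
  set φ : Ch V →ₗ[ℤ] ℤ := Finsupp.linearCombination ℤ
    (fun l : List V => if ∃ v, l = [v] ∧ R v then (1 : ℤ) else 0) with hφ
  have hφs : ∀ v, φ (Finsupp.single [v] 1) = if R v then 1 else 0 := by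
    intro v
    rw [hφ, Finsupp.linearCombination_single, one_smul]
    congr 1
    apply propext
    constructor
    · rintro ⟨w, hw, hRw⟩
      rw [List.singleton_inj] at hw
      rw [hw]; exact hRw
    · intro hv
      exact ⟨v, rfl, hv⟩
  have h0 : (φ.comp D) y ∈ (⊥ : Submodule ℤ ℤ) := by
    refine map_CF_le (N := ⊥) (φ.comp D) ?_ hy
    intro l hl hlen
    match l, hlen, hl with
    | [x, z], _, hl =>
      rw [LinearMap.comp_apply, D_single_one, bd_pair, map_sub, hφs, hφs, Submodule.mem_bot,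
        sub_eq_zero]
      have hx : x ∈ S := hl.1 x (by simp)
      have hz : z ∈ S := hl.1 z (by simp)
      rcases eq_or_ne x z with hxz | hxz
      · rw [hxz]
      · have hadj : G.Adj x z := hl.2 x (by simp) z (by simp) hxz
        have : R z ↔ R x := ⟨fun h => h.tail ⟨hadj.symm, hx⟩, fun h => h.tail ⟨hadj, hz⟩⟩
        simp only [this]
  rw [Submodule.mem_bot, LinearMap.comp_apply, hDy, map_sub, hφs, hφs, sub_eq_zero] at h0
  have hRa : R a := Relation.ReflTransGen.refl
  rw [if_pos hRa] at h0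
  by_contra hb'
  rw [if_neg hb'] at h0
  exact one_ne_zero h0

/-- the deterministic hypotheses on a graph -/
structure GoodGraph {n : ℕ} (k M : ℕ) (G : SimpleGraph (Fin n)) : Prop where
  s1 : ∀ U : Finset (Fin n), U.Nonempty → U.card ≤ M → eIn G U < (k + 1) * U.card
  s2 : ∀ U : Finset (Fin n), U.card = M → 2 * eIn G U + (k + 1) * (k + 2) < 2 * ((k + 1) * M)
  hA : Acyc (cl G (comN G ∅ (univ \ ∅))) k
  h1 : ∀ u v : Fin n, Acyc (cl G (comN G {u, v} (univ \ {u, v}))) 1
  h0 : ∀ u v w : Fin n, Acyc (cl G (comN G {u, v, w} (univ \ {u, v, w}))) 0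

theorem cl_eq_FK {n : ℕ} (G : SimpleGraph (Fin n)) :
    cl G (comN G ∅ (univ \ ∅)) = FK (cliques G) := by
  funext l
  apply propext
  unfold cl FK cliques comN
  constructor
  · rintro ⟨_, h⟩
    show G.IsClique _
    rw [SimpleGraph.isClique_iff]
    intro a ha b hb hab
    exact h a (by simpa using ha) b (by simpa using hb) hab
  · intro h
    have h' : G.IsClique ((l.toFinset : Finset (Fin n)) : Set (Fin n)) := h
    rw [SimpleGraph.isClique_iff] at h'
    refine ⟨fun a _ => ⟨by simp, by simp⟩, fun a ha b hb hab => ?_⟩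
    exact h' (by simpa using ha) (by simpa using hb) hab

theorem det (hT : Top.TopTarget) {n m M : ℕ} (hn : 0 < n) (hM : m + 3 + 2 ≤ M)
    (G : SimpleGraph (Fin n)) (hG : GoodGraph (m + 3) M G) :
    ∃ N : ℕ, Nonempty (ContinuousMap.HomotopyEquiv (Geo (cliques G)) (Top.wedge N (m + 3))) := by
  classical
  obtain ⟨K', hred, hcard⟩ := stmt_reduce (Fin n) G (m + 3) M hM hG.s1 hG.s2
  obtain ⟨hL, hsub, hiff, ⟨e⟩, hac⟩ := red_all (H26.isLowerSet_cliques G) hred
  have hA : Acyc (FK (cliques G)) (m + 3) := by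
    rw [← cl_eq_FK]; exact hG.hA
  have hA' := hac hA
  obtain ⟨hc1, hc2, hc3⟩ := Top.coh_of_Acyc hL hA'
  have h3 : ∀ u v w : Fin n, ∃ z, G.Adj z u ∧ G.Adj z v ∧ G.Adj z w := by
    intro u v w
    obtain ⟨z, _, hz⟩ := nonempty_of_acyc G _ (hG.h0 u v w)
    exact ⟨z, (hz u (by simp)).symm, (hz v (by simp)).symm, (hz w (by simp)).symm⟩
  have h2 : ∀ u v a b : Fin n, G.Adj a u → G.Adj a v → G.Adj b u → G.Adj b v →
      Relation.ReflTransGen (fun x y => G.Adj x y ∧ G.Adj y u ∧ G.Adj y v) a b := by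
    intro u v a b hau hav hbu hbv
    have hmem : ∀ x, G.Adj x u → G.Adj x v → x ∈ comN G {u, v} (univ \ {u, v}) := by
      intro x hxu hxv
      refine ⟨?_, ?_⟩
      · simp only [mem_sdiff, mem_univ, true_and, mem_insert, mem_singleton, not_or]
        exact ⟨hxu.ne, hxv.ne⟩
      · intro t ht
        simp only [mem_insert, mem_singleton] at ht
        rcases ht with rfl | rfl
        · exact hxu.symm
        · exact hxv.symm
    refine Relation.ReflTransGen.mono ?_ _ _
      (connected_of_acyc G _ (hG.h1 u v) (hmem a hau hav) (hmem b hbu hbv))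
    rintro x y ⟨hxy, _, hy⟩
    exact ⟨hxy, (hy u (by simp)).symm, (hy v (by simp)).symm⟩
  have hsc : Top.SC (H26.nz K') := by
    refine H26.sc_of_nbhd K' G ?_ ?_ h3 h2
    · intro s hs hcl
      exact (hiff s (by omega)).2 hcl
    · intro s hs
      exact hsub hs
  have hne : (H26.nz K').Nonempty := by
    obtain ⟨z, _⟩ := h3 ⟨0, hn⟩ ⟨0, hn⟩ ⟨0, hn⟩
    refine ⟨{z}, ⟨(hiff {z} (by simp)).2 ?_, ⟨z, by simp⟩⟩⟩
    show G.IsClique _
    simp
  obtain ⟨N, ⟨f⟩⟩ := hT n m (H26.nz K') (Top.isCpx_of_lower hL) hne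
    (fun s hs => hcard s hs.1) hsc hc1 hc2 hc3
  rw [H26.real_nz] at f
  exact ⟨N, ⟨e.trans f⟩⟩

end Pool.Agent.Work.MP_d1e9a6_pr
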