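import Pool.Agent.Work.MP_d1e9a6_pr_final.Det
import Pool.Agent.Work.MP_d1e9a6_pr_helper54.Gnp
import Pool.Agent.Work.MP_d1e9a6_pr_helper54.Sparse

/-!
Probabilistic part of the final assembly.
-/

set_option autoImplicit false

open Filter Topology

namespace Pool.Agent.Work.MP_d1e9a6_pr

/-- stretched exponential beats polynomial -/
theorem tendsto_poly_exp {A b γ : ℝ} (hA : 0 < A) (hb : 0 < b) (hγ : 0 < γ) (a c : ℕ) :
    Tendsto (fun n : ℕ => (n : ℝ) ^ c * (A * ((n : ℝ) + 1) ^ a * Real.exp (-(b * (n : ℝ) ^ γ))))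
      atTop (nhds 0) := by
  have h1 : Tendsto (fun n : ℕ => ((n : ℝ) ^ γ)) atTop atTop :=
    (tendsto_rpow_atTop hγ).comp tendsto_natCast_atTop_atTop
  have h2 := (tendsto_rpow_mul_exp_neg_mul_atTop_nhds_zero (((a + c : ℕ) : ℝ) / γ) b hb).comp h1
  have h3 : Tendsto (fun n : ℕ => (A * 2 ^ a) * (((n : ℝ) ^ γ) ^ (((a + c : ℕ) : ℝ) / γ) *
      Real.exp (-b * (n : ℝ) ^ γ))) atTop (nhds 0) := by
    simpa using h2.const_mul (A * 2 ^ a)
  refine tendsto_of_tendsto_of_tendsto_of_le_of_le' tendsto_const_nhds h3 ?_ ?_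
  · filter_upwards with n
    positivity
  · filter_upwards [eventually_ge_atTop 1] with n hn
    have hn1 : (1 : ℝ) ≤ n := by exact_mod_cast hn
    have hn0 : (0 : ℝ) ≤ n := by linarith
    have e1 : ((n : ℝ) ^ γ) ^ (((a + c : ℕ) : ℝ) / γ) = (n : ℝ) ^ (a + c) := by
      rw [← Real.rpow_mul hn0, mul_div_cancel₀ _ hγ.ne', Real.rpow_natCast]
    rw [e1]
    have e2 : ((n : ℝ) + 1) ^ a ≤ 2 ^ a * (n : ℝ) ^ a := by
      rw [← mul_pow]
      gcongr
      linarith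
    have e3 : -(b * (n : ℝ) ^ γ) = -b * (n : ℝ) ^ γ := by ring
    rw [e3]
    calc (n : ℝ) ^ c * (A * ((n : ℝ) + 1) ^ a * Real.exp (-b * (n : ℝ) ^ γ))
        ≤ (n : ℝ) ^ c * (A * (2 ^ a * (n : ℝ) ^ a) * Real.exp (-b * (n : ℝ) ^ γ)) := by
          gcongr
      _ = A * 2 ^ a * ((n : ℝ) ^ (a + c) * Real.exp (-b * (n : ℝ) ^ γ)) := by
          rw [pow_add]; ring

/-- the bound of Theorem A for small `T` -/
theorem bound_A {A b : ℝ} {a ℓ k : ℕ} (hA : 0 < A) (hb : 0 < b) {ε : ℝ}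
    (h : ∀ (n : ℕ) (p : ℝ), 0 ≤ p → p ≤ 1 → ∀ T W : Finset (Fin n), Disjoint T W →
      PrG n p (fun G => ¬ Acyc (cl G (comN G T W)) ℓ) ≤
        A * (n + 1 : ℝ) ^ a * Real.exp (-(b * W.card * p ^ (T.card + ℓ))))
    {n : ℕ} {p : ℝ} (h0 : 0 ≤ p) (h1 : p ≤ 1) (hn : 6 ≤ n) (hp : (n : ℝ) ^ ε ≤ n * p ^ k)
    (T : Finset (Fin n)) (hT : T.card ≤ 3) (hTk : T.card + ℓ ≤ k) :
    PrG n p (fun G => ¬ Acyc (cl G (comN G T (Finset.univ \ T))) ℓ) ≤
      A * (n + 1 : ℝ) ^ a * Real.exp (-((b / 2) * (n : ℝ) ^ ε)) := by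
  refine (h n p h0 h1 T _ Finset.disjoint_sdiff).trans ?_
  refine mul_le_mul_of_nonneg_left (Real.exp_le_exp.2 (neg_le_neg ?_)) (by positivity)
  have hW : ((Finset.univ \ T : Finset (Fin n)).card : ℝ) ≥ n / 2 := by
    have h2 : (Finset.univ \ T : Finset (Fin n)).card + T.card = n := by
      have := Finset.card_sdiff_add_card_eq_card (Finset.subset_univ T)
      rwa [Finset.card_univ, Fintype.card_fin] at this
    have h3 : ((Finset.univ \ T : Finset (Fin n)).card : ℝ) + T.card = n := by exact_mod_cast h2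
    have h4 : (T.card : ℝ) ≤ 3 := by exact_mod_cast hT
    have h5 : (6 : ℝ) ≤ n := by exact_mod_cast hn
    linarith
  have hpk : p ^ k ≤ p ^ (T.card + ℓ) := pow_le_pow_of_le_one h0 h1 hTk
  have hpk0 : 0 ≤ p ^ k := pow_nonneg h0 k
  calc b / 2 * (n : ℝ) ^ ε ≤ b / 2 * (n * p ^ k) := by gcongr
    _ = b * (n / 2) * p ^ k := by ring
    _ ≤ b * ((Finset.univ \ T : Finset (Fin n)).card : ℝ) * p ^ (T.card + ℓ) := by
        gcongr


/-- probability of the good event tends to one -/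
theorem tendsto_good (hA : Stmt_A) {k : ℕ} (hk : 3 ≤ k) {ε : ℝ} (hε : 0 < ε) {p : ℕ → ℝ}
    (hp : ∀ᶠ n : ℕ in atTop, (n : ℝ) ^ ε / (n : ℝ) ^ (1 / (k : ℝ)) ≤ p n ∧
      p n ≤ (n : ℝ) ^ (-ε) / (n : ℝ) ^ (1 / ((k : ℝ) + 1))) :
    ∃ M : ℕ, k + 2 ≤ M ∧ Tendsto (fun n : ℕ => PrG n (p n) (GoodGraph k M)) atTop (nhds 1) := by
  classical
  have hkpos : (0 : ℝ) < k := by
    have : (3 : ℝ) ≤ k := by exact_mod_cast hk
    linarith
  -- `p` is a probability
  have hp01 : ∀ᶠ n : ℕ in atTop, 0 ≤ p n ∧ p n ≤ 1 ∧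
      p n ≤ (n : ℝ) ^ (-ε) / (n : ℝ) ^ (1 / ((k : ℝ) + 1)) := by
    filter_upwards [hp, eventually_ge_atTop 1] with n hn hn1
    have hn1' : (1 : ℝ) ≤ n := by exact_mod_cast hn1
    refine ⟨le_trans (by positivity) hn.1, hn.2.trans ?_, hn.2⟩
    have h1 : (n : ℝ) ^ (-ε) ≤ 1 := Real.rpow_le_one_of_one_le_of_nonpos hn1' (by linarith)
    have h2 : (1 : ℝ) ≤ (n : ℝ) ^ (1 / ((k : ℝ) + 1)) :=
      Real.one_le_rpow hn1' (by positivity)
    rw [div_le_one (by linarith)]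
    exact h1.trans h2
  have hpk : ∀ᶠ n : ℕ in atTop, (n : ℝ) ^ (k * ε) ≤ n * p n ^ k := by
    filter_upwards [hp, eventually_ge_atTop 1] with n hn hn1
    have hn0 : (0 : ℝ) < n := by exact_mod_cast hn1
    have h1 : ((n : ℝ) ^ ε / (n : ℝ) ^ (1 / (k : ℝ))) ^ k ≤ p n ^ k :=
      pow_le_pow_left₀ (by positivity) hn.1 k
    have h2 : ((n : ℝ) ^ ε / (n : ℝ) ^ (1 / (k : ℝ))) ^ k = (n : ℝ) ^ (k * ε) / n := by
      rw [div_pow, ← Real.rpow_natCast ((n : ℝ) ^ ε), ← Real.rpow_natCast ((n : ℝ) ^ (1 / (k : ℝ))),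
        ← Real.rpow_mul hn0.le, ← Real.rpow_mul hn0.le, one_div,
        inv_mul_cancel₀ hkpos.ne', Real.rpow_one, mul_comm ε]
    calc (n : ℝ) ^ (k * ε) = n * ((n : ℝ) ^ (k * ε) / n) := by field_simp
      _ ≤ n * p n ^ k := by
        rw [← h2]
        exact mul_le_mul_of_nonneg_left h1 hn0.le
  obtain ⟨M, hM, hsp⟩ := sparse k ε (by omega) hε
  refine ⟨M, hM, ?_⟩
  have hS := hsp p hp01
  obtain ⟨A, b, a, hA0, hb0, hAk⟩ := hA k
  obtain ⟨A', b', a', hA0', hb0', hA1⟩ := hA 1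
  obtain ⟨A'', b'', a'', hA0'', hb0'', hA2⟩ := hA 0
  have hkε : 0 < k * ε := by positivity
  -- the total error
  have t0 := tendsto_poly_exp hA0 (by positivity : 0 < b / 2) hkε a 0
  have t1 := tendsto_poly_exp hA0' (by positivity : 0 < b' / 2) hkε a' 2
  have t2 := tendsto_poly_exp hA0'' (by positivity : 0 < b'' / 2) hkε a'' 3
  have tlow := ((hS.sub t0).sub t1).sub t2
  simp only [sub_zero] at tlow
  refine tendsto_of_tendsto_of_tendsto_of_le_of_le' tlow tendsto_const_nhds ?_ ?_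
  · filter_upwards [hp01, hpk, eventually_ge_atTop 6] with n hn hnk hn6
    obtain ⟨h0, h1, _⟩ := hn
    set S : SimpleGraph (Fin n) → Prop := fun G =>
      (∀ U : Finset (Fin n), U.Nonempty → U.card ≤ M → eIn G U < (k + 1) * U.card) ∧
      (∀ U : Finset (Fin n), U.card = M → 2 * eIn G U + (k + 1) * (k + 2) < 2 * ((k + 1) * M))
      with hSdef
    set B0 : SimpleGraph (Fin n) → Prop := fun G =>
      ¬ Acyc (cl G (comN G ∅ (Finset.univ \ ∅))) k with hB0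
    set B1 : SimpleGraph (Fin n) → Prop := fun G => ∃ q ∈ (Finset.univ : Finset (Fin n × Fin n)),
      ¬ Acyc (cl G (comN G {q.1, q.2} (Finset.univ \ {q.1, q.2}))) 1 with hB1
    set B2 : SimpleGraph (Fin n) → Prop := fun G =>
      ∃ q ∈ (Finset.univ : Finset (Fin n × Fin n × Fin n)),
      ¬ Acyc (cl G (comN G {q.1, q.2.1, q.2.2} (Finset.univ \ {q.1, q.2.1, q.2.2}))) 0 with hB2
    have e0 : PrG n (p n) B0 ≤ (n : ℝ) ^ 0 *
        (A * ((n : ℝ) + 1) ^ a * Real.exp (-(b / 2 * (n : ℝ) ^ (k * ε)))) := by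
      rw [pow_zero, one_mul]
      exact bound_A hA0 hb0 hAk h0 h1 hn6 hnk ∅ (by simp) (by simp)
    have e1 : PrG n (p n) B1 ≤ (n : ℝ) ^ 2 *
        (A' * ((n : ℝ) + 1) ^ a' * Real.exp (-(b' / 2 * (n : ℝ) ^ (k * ε)))) := by
      refine (PrG_exists_le h0 h1 (Finset.univ : Finset (Fin n × Fin n))
        (fun q G => ¬ Acyc (cl G (comN G {q.1, q.2} (Finset.univ \ {q.1, q.2}))) 1)).trans ?_
      refine (Finset.sum_le_card_nsmul _ _
        (A' * ((n : ℝ) + 1) ^ a' * Real.exp (-(b' / 2 * (n : ℝ) ^ (k * ε)))) ?_).trans ?_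
      · intro q _
        have hc : ({q.1, q.2} : Finset (Fin n)).card ≤ 2 := Finset.card_le_two
        exact bound_A hA0' hb0' hA1 h0 h1 hn6 hnk _ (by omega) (by omega)
      · rw [nsmul_eq_mul, Finset.card_univ, Fintype.card_prod, Fintype.card_fin]
        push_cast
        rw [pow_two]
    have e2 : PrG n (p n) B2 ≤ (n : ℝ) ^ 3 *
        (A'' * ((n : ℝ) + 1) ^ a'' * Real.exp (-(b'' / 2 * (n : ℝ) ^ (k * ε)))) := by
      refine (PrG_exists_le h0 h1 (Finset.univ : Finset (Fin n × Fin n × Fin n))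
        (fun q G => ¬ Acyc (cl G (comN G {q.1, q.2.1, q.2.2}
          (Finset.univ \ {q.1, q.2.1, q.2.2}))) 0)).trans ?_
      refine (Finset.sum_le_card_nsmul _ _
        (A'' * ((n : ℝ) + 1) ^ a'' * Real.exp (-(b'' / 2 * (n : ℝ) ^ (k * ε)))) ?_).trans ?_
      · intro q _
        have hc : ({q.1, q.2.1, q.2.2} : Finset (Fin n)).card ≤ 3 := Finset.card_le_three
        exact bound_A hA0'' hb0'' hA2 h0 h1 hn6 hnk _ (by omega) (by omega)
      · rw [nsmul_eq_mul, Finset.card_univ, Fintype.card_prod, Fintype.card_prod,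
          Fintype.card_fin]
        push_cast
        apply le_of_eq
        ring
    have hcov : PrG n (p n) S ≤ PrG n (p n) (GoodGraph k M) + PrG n (p n) B0 + PrG n (p n) B1 +
        PrG n (p n) B2 := by
      have hmono : PrG n (p n) S ≤
          PrG n (p n) (fun G => ((GoodGraph k M G ∨ B0 G) ∨ B1 G) ∨ B2 G) := by
        refine PrG_mono h0 h1 ?_
        intro G hG
        by_contra hcon
        push Not at hcon
        obtain ⟨⟨⟨hng, hb0⟩, hb1⟩, hb2⟩ := hcon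
        apply hng
        refine ⟨hG.1, hG.2, ?_, ?_, ?_⟩
        · by_contra h; exact hb0 h
        · intro u v
          by_contra h; exact hb1 ⟨(u, v), Finset.mem_univ _, h⟩
        · intro u v w
          by_contra h; exact hb2 ⟨(u, v, w), Finset.mem_univ _, h⟩
      refine hmono.trans ?_
      refine (PrG_or_le h0 h1 _ _).trans ?_
      gcongr
      refine (PrG_or_le h0 h1 _ _).trans ?_
      gcongr
      exact PrG_or_le h0 h1 _ _
    linarith
  · filter_upwards [hp01] with n hn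
    exact PrG_le_one hn.1 hn.2.1 _

/-- **Final assembly**: the frozen statement from Theorem A and the topological theorem. -/
theorem assemble_PrG (hA : Stmt_A) (hT : Top.TopTarget) {k : ℕ} (hk : 3 ≤ k) {ε : ℝ} (hε : 0 < ε)
    {p : ℕ → ℝ}
    (hp : ∀ᶠ n : ℕ in atTop, (n : ℝ) ^ ε / (n : ℝ) ^ (1 / (k : ℝ)) ≤ p n ∧
      p n ≤ (n : ℝ) ^ (-ε) / (n : ℝ) ^ (1 / ((k : ℝ) + 1))) :
    Tendsto (fun n : ℕ => PrG n (p n) (fun G => ∃ m : ℕ, Nonempty (ContinuousMap.HomotopyEquiv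
                {x : Fin n → ℝ // ∃ s : Finset (Fin n), G.IsClique (s : Set (Fin n)) ∧
                    x ∈ convexHull ℝ ((fun i : Fin n => (Pi.single i (1 : ℝ) : Fin n → ℝ)) '' (s : Set (Fin n)))}
                {y : Fin m × Fin (k + 1) → ℝ // y = 0 ∨ ∃ i : Fin m,
                    (∀ j : Fin m, ∀ t : Fin (k + 1), j ≠ i → y (j, t) = 0) ∧
                    ∑ t : Fin (k + 1), (y (i, t)) ^ 2 = 2 * y (i, 0)}))) atTop (nhds 1) := by
  obtain ⟨M, hM, hgood⟩ := tendsto_good hA hk hε hp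
  obtain ⟨m, rfl⟩ : ∃ m, k = m + 3 := ⟨k - 3, by omega⟩
  have hp01 : ∀ᶠ n : ℕ in atTop, 0 ≤ p n ∧ p n ≤ 1 := by
    filter_upwards [hp, eventually_ge_atTop 1] with n hn hn1
    have hn1' : (1 : ℝ) ≤ n := by exact_mod_cast hn1
    refine ⟨le_trans (by positivity) hn.1, hn.2.trans ?_⟩
    have h1 : (n : ℝ) ^ (-ε) ≤ 1 := Real.rpow_le_one_of_one_le_of_nonpos hn1' (by linarith)
    have h2 : (1 : ℝ) ≤ (n : ℝ) ^ (1 / (((m + 3 : ℕ) : ℝ) + 1)) :=
      Real.one_le_rpow hn1' (by positivity)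
    rw [div_le_one (by linarith)]
    exact h1.trans h2
  refine tendsto_of_tendsto_of_tendsto_of_le_of_le' hgood tendsto_const_nhds ?_ ?_
  · filter_upwards [hp01, eventually_ge_atTop 1] with n hn hn1
    refine PrG_mono hn.1 hn.2 ?_
    intro G hG
    exact H26.frozen_of_real G (m + 3) (det hT hn1 hM G hG)
  · filter_upwards [hp01] with n hn
    exact PrG_le_one hn.1 hn.2 _

end Pool.Agent.Work.MP_d1e9a6_pr
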